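import Pool.Agent.Helper58.SC.Main

/-!
# MP_17ebaf_lc: a polynomial class containing the three classical ones

All definitions are in `Pool.Agent.Helper58.SC.Defs`: `Feasible` (the decision problem),
`Bad` (the forbidden configuration), `Step`, `stage`, `Accepts` (the procedure).
-/

namespace Pool.Agent.Results.MP_17ebaf_lc.ChainAntichainClass

open Helper58SC

/-- Fix `m ≥ 1` machines and `k ≥ 2`, and let `c = (m - 1) (3 k - 4)`. Let `r` be a finite
partial order on `n` jobs.

If `r` does not contain the forbidden configuration (a `k`-chain `W` and `k` pairwise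
incomparable, pairwise non-twin jobs, higher than the jobs of `W`, each of which is the bottom
of a `k`-chain incomparable to `W`), then there is a schedule on `m` machines with makespan at
most `T` if and only if the forward chaining procedure `Accepts r m c T` accepts; the same holds
for the reversed order.  For `T ≤ n` (otherwise there is always a schedule) all facts found in
all rounds lie in one set of at most `4 (m n + 1) ^ (3 c + 2 m + 2)` facts, and there are at most
that many rounds.  The class contains all orders without a `k`-chain, all orders without a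
`k`-antichain, and all `(k + k)`-free orders. -/
theorem result (m k : ℕ) (hm : 1 ≤ m) (hk : 2 ≤ k) (n : ℕ) (r : Fin n → Fin n → Prop)
    (hr : IsStrictOrder (Fin n) r) (T : ℕ) :
    (¬ Bad k r → (Feasible r m T ↔ Accepts r m ((m - 1) * (3 * k - 4)) T)) ∧
    (¬ Bad k (fun a b => r b a) →
      (Feasible r m T ↔ Accepts (fun a b => r b a) m ((m - 1) * (3 * k - 4)) T)) ∧
    (∀ c : ℕ, T ≤ n → size (m * T) m c ≤ 4 * (m * n + 1) ^ (3 * c + 2 * m + 2) ∧
      ∃ F : Finset (Fact (m * T)), F.card ≤ 4 * (m * n + 1) ^ (3 * c + 2 * m + 2) ∧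
        ∀ i, stage (pad r (m * T)) m c i ⊆ ↑F) ∧
    (((¬ ∃ W : ℕ → Fin n, ∀ i j, i < j → j < k → r (W i) (W j)) ∨
       (¬ ∃ Y : ℕ → Fin n, ∀ p q, p < k → q < k → p ≠ q → Y p ≠ Y q ∧ ¬ r (Y p) (Y q)) ∨
       (¬ ∃ W Z : ℕ → Fin n, (∀ i j, i < j → j < k → r (W i) (W j)) ∧
          (∀ i j, i < j → j < k → r (Z i) (Z j)) ∧
          ∀ i j, i < k → j < k → W i ≠ Z j ∧ ¬ r (W i) (Z j) ∧ ¬ r (Z j) (W i))) →
      ¬ Bad k r) := by
  refine ⟨?_, ?_, ?_, ?_⟩
  · intro hB
    exact ⟨accepts_of_feasible r hr m k T hk hB, feasible_of_accepts r hr m _ T hm⟩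
  · intro hB
    constructor
    · intro h
      exact accepts_of_feasible _ (strict_rev r hr) m k T hk hB (feasible_rev r m T h)
    · intro h
      exact feasible_rev _ m T (feasible_of_accepts _ (strict_rev r hr) m _ T hm h)
  · intro c hT
    exact facts_bound r m c T hT
  · rintro h ⟨W, Z, h1, h2, h3, _, h4⟩
    rcases h with h | h | h
    · exact h ⟨W, h1⟩
    · refine h ⟨fun p => Z p 0, ?_⟩
      intro p q hp hq hpq
      obtain ⟨e1, e2⟩ := h4 p hp q hq hpq
      refine ⟨?_, e1⟩
      intro h5
      have h6 : Z p 0 = Z q 0 := h5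
      apply e2
      rw [h6]
      exact fun u => ⟨Iff.rfl, Iff.rfl⟩
    · refine h ⟨W, Z 0, h1, h2 0 (by omega), ?_⟩
      intro i j hi hj
      exact h3 0 (by omega) i hi j hj

end Pool.Agent.Results.MP_17ebaf_lc.ChainAntichainClass
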