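import Pool.Agent.Helper40.HS.Main

/-!
# MP_17ebaf_lc: unit jobs with few comparabilities on `m ≥ 3` machines

If every job is comparable with at most `k` other jobs and `m * T ≥ 2 * (m - 1) * (k + 1)`, then there is a
feasible schedule of makespan at most `T` on `m` machines if and only if there are at most `m * T` jobs. So the
optimal makespan of every instance with at least `2 * (m - 1) * (k + 1)` jobs is `⌈n / m⌉`.
-/

set_option autoImplicit false

namespace Pool.Agent.Results.MP_17ebaf_lc.FewComparabilities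

/-- `S` is a feasible schedule on `m` machines of the unit jobs `J` with precedence constraints `<`: at most `m`
jobs start at each time and `i < j` implies `S i + 1 ≤ S j`. -/
def Feasible {J : Type} [PartialOrder J] (m : ℕ) (S : J → ℕ) : Prop :=
  (∀ t : ℕ, {j : J | S j = t}.ncard ≤ m) ∧ ∀ i j : J, i < j → S i + 1 ≤ S j

/-- The makespan of a schedule. -/
def makespan {J : Type} [Fintype J] (S : J → ℕ) : ℕ := Finset.univ.sup fun j => S j + 1

theorem makespan_le {J : Type} [Fintype J] (S : J → ℕ) (T : ℕ) : makespan S ≤ T ↔ ∀ j, S j < T := by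
  simp [makespan, Finset.sup_le_iff]

open Classical in
theorem card_le {J : Type} [Fintype J] (m T : ℕ) (S : J → ℕ) (h : ∀ t : ℕ, {j : J | S j = t}.ncard ≤ m)
    (hT : ∀ j, S j < T) : Fintype.card J ≤ m * T := by
  have h1 : (Finset.univ : Finset J).card = ∑ t ∈ Finset.range T, (Finset.univ.filter fun j => S j = t).card :=
    Finset.card_eq_sum_card_fiberwise fun j _ => Finset.mem_coe.2 (Finset.mem_range.2 (hT j))
  rw [← Finset.card_univ, h1]
  refine (Finset.sum_le_sum (g := fun _ => m) fun t _ => ?_).trans (by simp [Nat.mul_comm])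
  have h2 := h t
  rw [Set.ncard_eq_toFinset_card'] at h2
  refine le_trans (Finset.card_le_card ?_) h2
  intro j hj
  simpa using hj

/-- Let `m ≥ 3` and let `J` be a finite set of unit jobs with precedence constraints, such that every job is
comparable with at most `k` other jobs. If `2 (m - 1) (k + 1) ≤ m T`, then there is a feasible schedule on `m`
machines of makespan at most `T` if and only if `|J| ≤ m T`. In particular, if `|J| ≥ 2 (m - 1) (k + 1)` then the
least makespan of a feasible schedule is `⌈|J| / m⌉`. -/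
theorem result (m k : ℕ) (hm : 3 ≤ m) (J : Type) [Fintype J] [PartialOrder J]
    (hk : ∀ j : J, {i : J | i < j ∨ j < i}.ncard ≤ k) :
    (∀ T : ℕ, 2 * (m - 1) * (k + 1) ≤ m * T →
      ((∃ S : J → ℕ, Feasible m S ∧ makespan S ≤ T) ↔ Fintype.card J ≤ m * T)) ∧
    (2 * (m - 1) * (k + 1) ≤ Fintype.card J →
      IsLeast {C : ℕ | ∃ S : J → ℕ, Feasible m S ∧ makespan S = C} ⌈(Fintype.card J : ℚ) / m⌉₊) := by
  classical
  have key : ∀ T : ℕ, 2 * (m - 1) * (k + 1) ≤ m * T → Fintype.card J ≤ m * T →
      ∃ S : J → ℕ, Feasible m S ∧ makespan S ≤ T := by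
    intro T hT hn
    obtain ⟨S, h1, h2, h3⟩ := Helper40.HS.main (P := J) m k T hm (fun x => by
      have h := hk x
      rw [Set.ncard_eq_toFinset_card'] at h
      refine le_trans (Finset.card_le_card ?_) h
      intro j hj
      simp only [Finset.mem_filter, Finset.mem_univ, true_and] at hj
      simp only [Set.mem_toFinset, Set.mem_ofPred_eq]
      tauto) hn hT
    refine ⟨S, ⟨fun t => ?_, fun i j hij => h2 i j hij⟩, (makespan_le S T).2 h1⟩
    rw [Set.ncard_eq_toFinset_card']
    refine le_trans (Finset.card_le_card ?_) (h3 t)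
    intro j hj
    simpa using hj
  have hlow : ∀ S : J → ℕ, Feasible m S → Fintype.card J ≤ m * makespan S := fun S hS =>
    card_le m _ S hS.1 ((makespan_le S _).1 le_rfl)
  have hm0 : (0 : ℚ) < m := by
    have : 0 < m := by omega
    exact_mod_cast this
  refine ⟨fun T hT => ⟨?_, key T hT⟩, fun hn => ?_⟩
  · rintro ⟨S, hS, hST⟩
    exact (hlow S hS).trans (Nat.mul_le_mul_left m hST)
  · have hceil : Fintype.card J ≤ m * ⌈(Fintype.card J : ℚ) / m⌉₊ := by
      have h1 := Nat.le_ceil ((Fintype.card J : ℚ) / m)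
      rw [div_le_iff₀ hm0] at h1
      have h2 : (Fintype.card J : ℚ) ≤ ((m * ⌈(Fintype.card J : ℚ) / m⌉₊ : ℕ) : ℚ) := by
        push_cast
        linarith
      exact_mod_cast h2
    have hlb : ∀ S : J → ℕ, Feasible m S → ⌈(Fintype.card J : ℚ) / m⌉₊ ≤ makespan S := by
      intro S hS
      rw [Nat.ceil_le, div_le_iff₀ hm0]
      have h2 : (Fintype.card J : ℚ) ≤ ((m * makespan S : ℕ) : ℚ) := by exact_mod_cast hlow S hS
      push_cast at h2
      linarith
    obtain ⟨S, hS, hST⟩ := key _ (hn.trans hceil) hceil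
    refine ⟨⟨S, hS, le_antisymm hST (hlb S hS)⟩, ?_⟩
    rintro C ⟨S', hS', rfl⟩
    exact hlb S' hS'

end Pool.Agent.Results.MP_17ebaf_lc.FewComparabilities
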