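import Pool.Agent.Helper57.PL.Fam
import Pool.Agent.Helper58.SC.Main

/-!
# MP_17ebaf_lc: unit jobs on `m` machines, orders whose middle has bounded width

Peeling off the maximal jobs and the minimal jobs alternately, `l` times each, and dynamic
programming for the rest (definitions: Pool/Agent/Helper57/PL/Defs.lean).
-/

namespace Pool.Agent.Results.MP_17ebaf_lc.MiddleWidth

open Finset Pool.Agent.Helper57.PL

private theorem feas_eq {n : ℕ} (r : Fin n → Fin n → Prop) (m T : ℕ) :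
    Feasible r m T ↔ Helper58SC.Feasible r m T := by
  unfold Feasible Helper58SC.Feasible
  constructor
  · rintro ⟨S, h1, h2⟩
    refine ⟨S, fun t => le_trans (le_of_eq ?_) (h1 t), h2⟩
    congr 1
  · rintro ⟨S, h1, h2⟩
    refine ⟨S, fun t => le_trans (le_of_eq ?_) (h1 t), h2⟩
    congr 1

private theorem pad_eq {n : ℕ} (r : Fin n → Fin n → Prop) (N : ℕ) :
    pad r N = Helper58SC.pad r N := rfl

private theorem has_pad {n : ℕ} (r : Fin n → Fin n → Prop) (N : ℕ) : ∀ (k : ℕ) (v : Fin N)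
    (hv : v.1 < n), Has (pad r N) k v → Has r k ⟨v.1, hv⟩ := by
  intro k
  induction k with
  | zero => exact fun _ _ _ => trivial
  | succ k ih =>
    rintro v hv ⟨y, ⟨_, hy, h1⟩, h2⟩
    exact ⟨⟨y.1, hy⟩, h1, ih y hy h2⟩

private theorem has_pad_rev {n : ℕ} (r : Fin n → Fin n → Prop) (N : ℕ) : ∀ (k : ℕ) (v : Fin N)
    (hv : v.1 < n), Has (fun a b => pad r N b a) k v → Has (fun a b => r b a) k ⟨v.1, hv⟩ := by
  intro k
  induction k with
  | zero => exact fun _ _ _ => trivial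
  | succ k ih =>
    rintro v hv ⟨y, ⟨hy, _, h1⟩, h2⟩
    exact ⟨⟨y.1, hy⟩, h1, ih y hy h2⟩

/-- **Unit jobs with precedences on `m` machines, orders with a narrow middle.** -/
theorem result (n m l T : ℕ) (hm : 1 ≤ m) (hl : 1 ≤ l) (r : Fin n → Fin n → Prop)
    (hr : IsStrictOrder (Fin n) r) :
    (∀ F : Finset (Fin (m * T)) → ℕ → Prop,
      (∀ P ∈ fam m (2 * l) (pad r (m * T)) {univ}, ∀ t ≤ T,
        (F P t ↔ Full (pad r (m * T)) m P t)) →
      (Feasible r m T ↔ n ≤ m * T ∧ Solve F m (2 * l) (pad r (m * T)) univ T)) ∧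
    (∀ P t, (P ∈ Dp (pad r (m * T)) m P t ↔ Full (pad r (m * T)) m P t)) ∧
    (n ≤ T → Feasible r m T) ∧
    (T ≤ n →
      (∀ j, (fam m j (pad r (m * T)) {univ}).card ≤ (2 * (m * n + 1) ^ (2 * (m - 1))) ^ j) ∧
      (∀ (s : Fin (m * T) → Fin (m * T) → Prop) (P : Finset (Fin (m * T))) (e : ℕ)
        (F F' : Finset (Fin (m * T)) → ℕ → Prop),
        (∀ t c, Reach F s m P e t c → t ≤ e ∧ c ∈ cps m P) ∧
        (cps m P).card ≤ 2 * (m * n + 1) ^ (m - 1) ∧
        ((∀ Q ∈ pieces s m P, ∀ t ≤ e, (F Q t ↔ F' Q t)) →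
          (Peel F s m P e ↔ Peel F' s m P e))) ∧
      (∀ P ∈ fam m (2 * l) (pad r (m * T)) {univ}, ∀ v ∈ P, ∃ hv : v.1 < n,
        Mid r l ⟨v.1, hv⟩) ∧
      ∀ w : ℕ, (∀ A : Finset (Fin n), (∀ a ∈ A, Mid r l a) → (∀ a ∈ A, ∀ b ∈ A, ¬ r a b) →
        A.card ≤ w) →
        ∀ P ∈ fam m (2 * l) (pad r (m * T)) {univ}, ∀ t,
          (Dp (pad r (m * T)) m P t).card ≤ (m * n + 1) ^ w) := by
  classical
  have hP : IsStrictOrder (Fin (m * T)) (pad r (m * T)) := Helper58SC.pad_strict r hr (m * T)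
  have htr : ∀ a b c, pad r (m * T) a b → pad r (m * T) b c → pad r (m * T) a c :=
    fun a b c h h' => hP.trans a b c h h'
  have hmid : ∀ P ∈ fam m (2 * l) (pad r (m * T)) {univ}, ∀ v ∈ P, ∃ hv : v.1 < n,
      Mid r l ⟨v.1, hv⟩ := by
    intro P hPf v hv
    obtain ⟨h1, h2⟩ := fam_mid (pad r (m * T)) m l 0 0 {univ}
      (fun _ _ _ _ => ⟨trivial, trivial⟩) P hPf v hv
    rw [Nat.zero_add] at h1 h2
    have hvn : v.1 < n := by
      obtain ⟨k, rfl⟩ : ∃ k, l = k + 1 := ⟨l - 1, by omega⟩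
      obtain ⟨y, ⟨h3, _⟩, _⟩ := h1
      exact h3
    exact ⟨hvn, has_pad r _ l v hvn h1, has_pad_rev r _ l v hvn h2⟩
  refine ⟨?_, fun P t => base_iff _ m P t, ?_, ?_⟩
  · intro F hF
    rw [feas_eq, solve_iff F m hm T (2 * l) (pad r (m * T)) htr {univ} hF univ
      (mem_singleton_self _) T le_rfl]
    constructor
    · intro h
      have hn := Helper58SC.card_le_of_feasible r m T h
      refine ⟨hn, ?_⟩
      obtain ⟨S, h1, h2, h3⟩ := Helper58SC.full_of_feasible r m T hn h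
      refine ⟨S, fun j _ => h1 j, ?_, fun i _ j _ hij => h3 i j hij⟩
      intro t ht
      refine Eq.trans ?_ (h2 t ht)
      congr 1
    · rintro ⟨hn, S, h1, h2, h3⟩
      apply Helper58SC.feasible_of_perf r m T hm hn
      refine ⟨T, S, h1, ?_, h3⟩
      intro t ht
      refine Eq.trans ?_ (h2 t ht)
      congr 1
  · intro h
    rw [feas_eq]
    exact Helper58SC.feasible_of_le r hr m T hm h
  · intro hT
    have hmT : Fintype.card (Fin (m * T)) + 1 ≤ m * n + 1 := by
      rw [Fintype.card_fin]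
      exact Nat.succ_le_succ (Nat.mul_le_mul_left m hT)
    refine ⟨?_, ?_, hmid, ?_⟩
    · intro j
      refine (card_fam m j (pad r (m * T)) {univ}).trans ?_
      rw [card_singleton, one_mul]
      exact Nat.pow_le_pow_left (Nat.mul_le_mul_left 2 (Nat.pow_le_pow_left hmT _)) j
    · intro s P e F F'
      refine ⟨fun t c h => reach_cps F s m P e t c h, ?_, ?_⟩
      · exact (card_cps m P).trans (Nat.mul_le_mul_left 2 (Nat.pow_le_pow_left hmT _))
      · intro h
        exact ⟨peel_congr F F' s m hm P e fun Q hQ t ht => (h Q hQ t ht).1,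
          peel_congr F' F s m hm P e fun Q hQ t ht => (h Q hQ t ht).2⟩
    · intro w hw P hPf t
      refine (card_dp (pad r (m * T)) hP m w P ?_ t).trans (Nat.pow_le_pow_left hmT _)
      intro A hA hanti
      have hlt : ∀ a ∈ A, a.1 < n := fun a ha => (hmid P hPf a (hA ha)).1
      have e : A.card = (A.attach.image fun a => (⟨a.1.1, hlt a.1 a.2⟩ : Fin n)).card := by
        rw [card_image_of_injective, card_attach]
        intro a b hab
        apply Subtype.ext
        apply Fin.ext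
        have hab' : (⟨a.1.1, hlt a.1 a.2⟩ : Fin n) = ⟨b.1.1, hlt b.1 b.2⟩ := hab
        exact congrArg (fun z : Fin n => z.1) hab'
      rw [e]
      apply hw
      · intro a ha
        rw [mem_image] at ha
        obtain ⟨b, _, rfl⟩ := ha
        exact (hmid P hPf b.1 (hA b.2)).2
      · intro a ha b hb hab
        rw [mem_image] at ha hb
        obtain ⟨a', _, rfl⟩ := ha
        obtain ⟨b', _, rfl⟩ := hb
        exact hanti a'.1 a'.2 b'.1 b'.2 ⟨hlt _ a'.2, hlt _ b'.2, hab⟩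

end Pool.Agent.Results.MP_17ebaf_lc.MiddleWidth
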